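import Pool.Agent.R442.GS.Stm

/-! MP_f98a08_co, part A: the two-sided Eulerian identity (Carlitz-Roselle-Scoville). -/

open Finset
open scoped Classical

namespace Pool.Agent.R706.GS

variable {n : ℕ}

/-- weakly increasing, strictly at the positions in `D` -/
def Adm {m : ℕ} (D : Finset (Fin n)) (a : Fin n → Fin m) : Prop :=
  ∀ i : Fin n, ∀ h : i.val + 1 < n,
    a i ≤ a ⟨i.val + 1, h⟩ ∧ (i ∈ D → a i < a ⟨i.val + 1, h⟩)

/-- number of elements of `D` below `i` -/
noncomputable def cnt (D : Finset (Fin n)) (i : ℕ) : ℕ := (D.filter fun j => j.val < i).card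

theorem cnt_succ (D : Finset (Fin n)) (i : Fin n) :
    cnt D (i.val + 1) = cnt D i.val + if i ∈ D then 1 else 0 := by
  unfold cnt
  by_cases hi : i ∈ D
  · rw [if_pos hi]
    have h : (D.filter fun j => j.val < i.val + 1)
        = insert i (D.filter fun j => j.val < i.val) := by
      ext j
      simp only [mem_filter, mem_insert]
      constructor
      · rintro ⟨h1, h2⟩
        rcases Nat.lt_succ_iff_lt_or_eq.1 h2 with h3 | h3
        · exact Or.inr ⟨h1, h3⟩
        · exact Or.inl (Fin.ext h3)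
      · rintro (rfl | ⟨h1, h2⟩)
        · exact ⟨hi, by omega⟩
        · exact ⟨h1, by omega⟩
    rw [h, card_insert_of_notMem (by simp)]
  · rw [if_neg hi, add_zero]
    congr 1
    ext j
    simp only [mem_filter]
    constructor
    · rintro ⟨h1, h2⟩
      refine ⟨h1, ?_⟩
      rcases Nat.lt_succ_iff_lt_or_eq.1 h2 with h3 | h3
      · exact h3
      · exact absurd h1 (by rw [Fin.ext h3]; exact hi)
    · rintro ⟨h1, h2⟩
      exact ⟨h1, by omega⟩

theorem cnt_zero (D : Finset (Fin n)) : cnt D 0 = 0 := by simp [cnt]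

theorem cnt_n (D : Finset (Fin n)) : cnt D n = D.card := by
  unfold cnt
  congr 1
  ext j; simp

theorem cnt_lip (D : Finset (Fin n)) (i d : ℕ) (h : i + d ≤ n) :
    cnt D i ≤ cnt D (i + d) ∧ cnt D (i + d) ≤ cnt D i + d := by
  induction d with
  | zero => simp
  | succ d ih =>
    have h1 := ih (by omega)
    have h2 := cnt_succ D ⟨i + d, by omega⟩
    simp only at h2
    rw [← add_assoc, h2]
    split_ifs <;> omega

theorem cnt_le (D : Finset (Fin n)) (i : ℕ) (h : i ≤ n) : cnt D i ≤ i := by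
  have := (cnt_lip D 0 i (by omega)).2
  rwa [cnt_zero, zero_add] at this

/-- positions which are not the last one -/
theorem card_le_cnt (D : Finset (Fin n)) (hD : ∀ i ∈ D, i.val + 1 < n) (i : Fin n) :
    D.card + i.val + 1 ≤ cnt D i.val + n := by
  have h1 : cnt D n = cnt D (n - 1) := by
    have hn : 0 < n := i.pos
    have h2 := cnt_succ D ⟨n - 1, by omega⟩
    simp only at h2
    have h3 : n - 1 + 1 = n := by omega
    rw [h3, if_neg] at h2
    · exact h2
    · intro h4
      have := hD _ h4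
      simp only at this
      omega
  have h2 := (cnt_lip D i.val (n - 1 - i.val) (by omega)).2
  have h3 : i.val + (n - 1 - i.val) = n - 1 := by omega
  rw [h3, ← h1, cnt_n] at h2
  omega

theorem strict_chain {M : ℕ} (b : Fin n → Fin M)
    (hb : ∀ i : Fin n, ∀ h : i.val + 1 < n, b i < b ⟨i.val + 1, h⟩) (d : ℕ) :
    ∀ (i : Fin n) (h : i.val + d < n), (b i).val + d ≤ (b ⟨i.val + d, h⟩).val := by
  induction d with
  | zero => intro i h; simp
  | succ d ih =>
    intro i h
    have h1 := ih i (by omega)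
    have h2 := hb ⟨i.val + d, by omega⟩ h
    have h3 : (b ⟨i.val + d, by omega⟩).val < (b ⟨i.val + (d + 1), h⟩).val := h2
    omega

theorem strictMono_of_cons {M : ℕ} (b : Fin n → Fin M)
    (hb : ∀ i : Fin n, ∀ h : i.val + 1 < n, b i < b ⟨i.val + 1, h⟩) : StrictMono b := by
  intro i j hij
  have hij' : i.val < j.val := hij
  have h := strict_chain b hb (j.val - i.val) i (by omega)
  have h2 : (⟨i.val + (j.val - i.val), by omega⟩ : Fin n) = j := Fin.ext (by simp; omega)
  rw [h2] at h
  exact Fin.lt_def.2 (by omega)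

theorem card_strict (n M : ℕ) :
    (univ.filter fun b : Fin n → Fin M => StrictMono b).card = M.choose n := by
  have h : (Finset.powersetCard n (univ : Finset (Fin M))).card = M.choose n := by
    rw [Finset.card_powersetCard, Finset.card_univ, Fintype.card_fin]
  rw [← h]
  refine Finset.card_bij (fun b _ => univ.image b) ?_ ?_ ?_
  · intro b hb
    have hb := (mem_filter.1 hb).2
    rw [Finset.mem_powersetCard]
    exact ⟨subset_univ _, by
      rw [Finset.card_image_of_injective _ hb.injective, Finset.card_univ, Fintype.card_fin]⟩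
  · intro b hb c hc hbc
    have hb := (mem_filter.1 hb).2
    have hc := (mem_filter.1 hc).2
    rw [← hb.range_inj hc]
    have := congrArg (fun s : Finset (Fin M) => (s : Set (Fin M))) hbc
    simpa using this
  · intro s hs
    have hs := (Finset.mem_powersetCard.1 hs).2
    refine ⟨s.orderEmbOfFin hs, mem_filter.2 ⟨mem_univ _, (s.orderEmbOfFin hs).strictMono⟩, ?_⟩
    simp

theorem card_adm (hn : 1 ≤ n) (k : ℕ) (D : Finset (Fin n)) (hD : ∀ i ∈ D, i.val + 1 < n) :
    (univ.filter fun a : Fin n → Fin k => Adm D a).card = (n + k - 1 - D.card).choose n := by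
  rw [← card_strict n (n + k - 1 - D.card)]
  have key : ∀ i : Fin n, D.card + i.val + 1 ≤ cnt D i.val + n := card_le_cnt D hD
  have keyle : ∀ i : Fin n, cnt D i.val ≤ i.val := fun i => cnt_le D i.val (by omega)
  refine Finset.card_bij (fun a _ => fun i => ⟨(a i).val + (i.val - cnt D i.val), by
    have h1 := key i
    have h2 := keyle i
    have h3 := (a i).isLt
    omega⟩) ?_ ?_ ?_
  · intro a ha
    have ha := (mem_filter.1 ha).2
    refine mem_filter.2 ⟨mem_univ _, strictMono_of_cons _ ?_⟩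
    intro i h
    rw [Fin.lt_def]
    simp only
    have h1 := cnt_succ D i
    have h2 := ha i h
    have h3 := keyle i
    have h4 : (a i).val ≤ (a ⟨i.val + 1, h⟩).val := h2.1
    by_cases hi : i ∈ D
    · have h5 : (a i).val < (a ⟨i.val + 1, h⟩).val := h2.2 hi
      rw [if_pos hi] at h1
      omega
    · rw [if_neg hi] at h1
      omega
  · intro a _ b _ hab
    funext i
    have h1 := congrArg Fin.val (congrFun hab i)
    simp only at h1
    exact Fin.ext (by omega)
  · intro b hb
    have hb := (mem_filter.1 hb).2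
    have hcons : ∀ i : Fin n, ∀ h : i.val + 1 < n, b i < b ⟨i.val + 1, h⟩ := fun i h =>
      hb (Fin.lt_def.2 (by simp))
    have h0 : ∀ i : Fin n, i.val ≤ (b i).val := by
      intro i
      have h1 := strict_chain b hcons i.val ⟨0, by omega⟩ (by simp)
      have h2 : (⟨0 + i.val, by omega⟩ : Fin n) = i := Fin.ext (by simp)
      simp only at h1
      rw [h2] at h1
      omega
    have h1 : ∀ i : Fin n, (b i).val + n < n + k - 1 - D.card + i.val + 1 := by
      intro i
      have h1 := strict_chain b hcons (n - 1 - i.val) i (by omega)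
      have h2 := (b ⟨i.val + (n - 1 - i.val), by omega⟩).isLt
      omega
    have hle : ∀ i : Fin n, i.val - cnt D i.val ≤ (b i).val := fun i => by
      have := h0 i; omega
    have hcard : D.card + 1 ≤ n := by
      have := key ⟨0, by omega⟩
      simp only [cnt_zero] at this
      omega
    have hk : 0 < k := by
      have := h1 ⟨0, by omega⟩
      simp only at this
      omega
    refine ⟨fun i => ⟨(b i).val - (i.val - cnt D i.val), by
      have a1 := h1 i
      have a2 := key i
      have a3 := keyle i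
      have a4 := hle i
      have a5 : cnt D i.val ≤ D.card := card_le_card (filter_subset _ _)
      omega⟩, ?_, ?_⟩
    · refine mem_filter.2 ⟨mem_univ _, ?_⟩
      intro i h
      rw [Fin.le_def, Fin.lt_def]
      simp only
      have a1 := cnt_succ D i
      have a2 : (b i).val < (b ⟨i.val + 1, h⟩).val := hcons i h
      have a3 := keyle i
      have a4 := hle i
      have a5 := hle ⟨i.val + 1, h⟩
      simp only at a5
      by_cases hi : i ∈ D
      · rw [if_pos hi] at a1
        exact ⟨by omega, fun _ => by omega⟩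
      · rw [if_neg hi] at a1
        exact ⟨by omega, fun h => absurd h hi⟩
    · funext i
      apply Fin.ext
      simp only
      have := hle i
      omega

/-- lexicographically weakly increasing pairs -/
def LM {k l : ℕ} (a : Fin n → Fin k) (b : Fin n → Fin l) : Prop :=
  ∀ i : Fin n, ∀ h : i.val + 1 < n,
    a i < a ⟨i.val + 1, h⟩ ∨ (a i = a ⟨i.val + 1, h⟩ ∧ b i ≤ b ⟨i.val + 1, h⟩)

theorem lex_iff (l x y x' y' : ℕ) (hy : y < l) (hy' : y' < l) :
    y + l * x ≤ y' + l * x' ↔ (x < x' ∨ (x = x' ∧ y ≤ y')) := by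
  constructor
  · intro h
    rcases lt_trichotomy x x' with h1 | h1 | h1
    · exact Or.inl h1
    · subst h1; exact Or.inr ⟨rfl, by omega⟩
    · exfalso
      have h2 : l * (x' + 1) ≤ l * x := Nat.mul_le_mul_left l h1
      rw [Nat.mul_add] at h2
      omega
  · rintro (h1 | ⟨rfl, h2⟩)
    · have h2 : l * (x + 1) ≤ l * x' := Nat.mul_le_mul_left l h1
      rw [Nat.mul_add] at h2
      omega
    · omega

theorem card_LM (hn : 1 ≤ n) (k l : ℕ) :
    (univ.filter fun p : (Fin n → Fin k) × (Fin n → Fin l) => LM p.1 p.2).card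
      = (k * l + n - 1).choose n := by
  have h0 := card_adm hn (k * l) (∅ : Finset (Fin n)) (by simp)
  rw [card_empty, Nat.sub_zero, Nat.add_comm n] at h0
  rw [← h0]
  refine Finset.card_bij (fun p _ => fun i => finProdFinEquiv (p.1 i, p.2 i)) ?_ ?_ ?_
  · intro p hp
    have hp := (mem_filter.1 hp).2
    refine mem_filter.2 ⟨mem_univ _, ?_⟩
    intro i h
    refine ⟨?_, fun h => absurd h (by simp)⟩
    rw [Fin.le_def]
    simp only [finProdFinEquiv_apply_val]
    rw [lex_iff l _ _ _ _ (p.2 i).isLt (p.2 _).isLt]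
    rcases hp i h with h1 | ⟨h1, h2⟩
    · exact Or.inl h1
    · exact Or.inr ⟨congrArg Fin.val h1, h2⟩
  · intro p _ r _ hpr
    have h1 : ∀ i, (p.1 i, p.2 i) = (r.1 i, r.2 i) := fun i =>
      finProdFinEquiv.injective (congrFun hpr i)
    apply Prod.ext
    · funext i; exact (Prod.mk.inj (h1 i)).1
    · funext i; exact (Prod.mk.inj (h1 i)).2
  · intro c hc
    have hc := (mem_filter.1 hc).2
    refine ⟨(fun i => (finProdFinEquiv.symm (c i)).1, fun i => (finProdFinEquiv.symm (c i)).2),
      mem_filter.2 ⟨mem_univ _, ?_⟩, ?_⟩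
    · intro i h
      have h1 := (hc i h).1
      rw [Fin.le_def] at h1
      have h2 : ∀ i, (c i).val = ((finProdFinEquiv.symm (c i)).2).val
          + l * ((finProdFinEquiv.symm (c i)).1).val := by
        intro i
        have h3 := finProdFinEquiv_apply_val (finProdFinEquiv.symm (c i))
        rw [Equiv.apply_symm_apply] at h3
        exact h3
      rw [h2 i, h2 ⟨i.val + 1, h⟩, lex_iff l _ _ _ _ (Fin.isLt _) (Fin.isLt _)] at h1
      rcases h1 with h1 | ⟨h1, h2⟩
      · exact Or.inl h1
      · exact Or.inr ⟨Fin.ext h1, h2⟩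
    · funext i
      exact finProdFinEquiv.apply_symm_apply (c i)

/-- descent set -/
noncomputable def Des (σ : Equiv.Perm (Fin n)) : Finset (Fin n) :=
  univ.filter fun i : Fin n => ∃ h : i.val + 1 < n, σ ⟨i.val + 1, h⟩ < σ i

theorem mem_Des (σ : Equiv.Perm (Fin n)) (i : Fin n) (h : i.val + 1 < n) :
    i ∈ Des σ ↔ σ ⟨i.val + 1, h⟩ < σ i := by
  unfold Des
  rw [mem_filter]
  exact ⟨fun ⟨_, _, h2⟩ => h2, fun h2 => ⟨mem_univ _, h, h2⟩⟩

theorem Des_lt (σ : Equiv.Perm (Fin n)) : ∀ i ∈ Des σ, i.val + 1 < n := by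
  intro i hi
  obtain ⟨h, _⟩ := (mem_filter.1 hi).2
  exact h

theorem des_eq (σ : Equiv.Perm (Fin n)) : R442.GS.des σ = (Des σ).card := by
  unfold R442.GS.des Des
  congr 1

/-- an admissible function for `Des τ` is monotone, and ties force increasing `τ` -/
theorem adm_spec {m : ℕ} (τ : Equiv.Perm (Fin n)) (b : Fin n → Fin m) (hb : Adm (Des τ) b)
    (d : ℕ) : ∀ (i : Fin n) (h : i.val + d < n),
      b i ≤ b ⟨i.val + d, h⟩ ∧ (0 < d → b i = b ⟨i.val + d, h⟩ → τ i < τ ⟨i.val + d, h⟩) := by
  induction d with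
  | zero => intro i h; simp
  | succ d ih =>
    intro i h
    have h1 := ih i (by omega)
    have h2 := hb ⟨i.val + d, by omega⟩ h
    have h2' : b ⟨i.val + d, by omega⟩ ≤ b ⟨i.val + (d + 1), h⟩ := h2.1
    refine ⟨h1.1.trans h2', fun _ he => ?_⟩
    have e1 : b i = b ⟨i.val + d, by omega⟩ := le_antisymm h1.1 (he ▸ h2')
    have e2 : ¬ (⟨i.val + d, by omega⟩ : Fin n) ∈ Des τ := by
      intro h3
      have h4 : b ⟨i.val + d, by omega⟩ < b ⟨i.val + (d + 1), h⟩ := h2.2 h3
      rw [← e1, ← he] at h4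
      exact lt_irrefl _ h4
    rw [mem_Des τ _ h, not_lt] at e2
    have e3 : τ ⟨i.val + d, by omega⟩ < τ ⟨i.val + (d + 1), h⟩ := by
      refine lt_of_le_of_ne e2 ?_
      intro h5
      have := congrArg Fin.val (τ.injective h5)
      simp only at this
      omega
    rcases Nat.eq_zero_or_pos d with hd | hd
    · subst hd
      simpa using e3
    · exact (h1.2 hd e1).trans e3

theorem adm_iff_sort {m : ℕ} (τ : Equiv.Perm (Fin n)) (b : Fin n → Fin m) :
    Adm (Des τ) (b ∘ τ) ↔ τ = Tuple.sort b := by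
  rw [Tuple.eq_sort_iff]
  constructor
  · intro h
    have key := adm_spec τ (b ∘ τ) h
    have key2 : ∀ i j : Fin n, i < j → (b ∘ τ) i ≤ (b ∘ τ) j
        ∧ ((b ∘ τ) i = (b ∘ τ) j → τ i < τ j) := by
      intro i j hij
      have hij' : i.val < j.val := hij
      have h1 := key (j.val - i.val) i (by omega)
      have h2 : (⟨i.val + (j.val - i.val), by omega⟩ : Fin n) = j := Fin.ext (by simp; omega)
      rw [h2] at h1
      exact ⟨h1.1, h1.2 (by omega)⟩
    refine ⟨?_, fun i j hij => (key2 i j hij).2⟩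
    intro i j hij
    rcases hij.eq_or_lt with h1 | h1
    · rw [h1]
    · exact (key2 i j h1).1
  · rintro ⟨h1, h2⟩ i h
    have hlt : i < ⟨i.val + 1, h⟩ := Fin.lt_def.2 (by simp)
    refine ⟨h1 hlt.le, fun hi => ?_⟩
    rw [mem_Des τ i h] at hi
    refine lt_of_le_of_ne (h1 hlt.le) ?_
    intro he
    exact absurd (h2 _ _ hlt he) (not_lt.2 hi.le)

theorem fiber_card {k l : ℕ} (σ : Equiv.Perm (Fin n)) :
    ((univ.filter fun p : (Fin n → Fin k) × (Fin n → Fin l) => LM p.1 p.2).filter
      fun p => (Tuple.sort p.2)⁻¹ = σ).card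
    = (univ.filter fun a : Fin n → Fin k => Adm (Des σ) a).card
      * (univ.filter fun b : Fin n → Fin l => Adm (Des σ⁻¹) b).card := by
  rw [← Finset.card_product]
  have hinv : ∀ x, σ⁻¹ (σ x) = x := fun x => σ.symm_apply_apply x
  have hlex : ∀ (b : Fin n → Fin l), σ⁻¹ = Tuple.sort b →
      ∀ (i : Fin n) (h : i.val + 1 < n), (σ ⟨i.val + 1, h⟩ < σ i ↔ b ⟨i.val + 1, h⟩ < b i) := by
    intro b hb i h
    have h1 := Tuple.eq_sort_iff.1 hb
    have hlt : i < ⟨i.val + 1, h⟩ := Fin.lt_def.2 (by simp)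
    constructor
    · intro h2
      have h3 := h1.1 h2.le
      simp only [Function.comp, hinv] at h3
      refine lt_of_le_of_ne h3 ?_
      intro he
      have h4 := h1.2 _ _ h2 (by rw [hinv, hinv]; exact he)
      rw [hinv, hinv] at h4
      exact absurd h4 (not_lt.2 hlt.le)
    · intro h2
      by_contra h3
      have h4 := h1.1 (not_lt.1 h3)
      simp only [Function.comp, hinv] at h4
      exact absurd h2 (not_lt.2 h4)
  refine Finset.card_bij (fun p _ => (p.1, p.2 ∘ (σ⁻¹ : Equiv.Perm (Fin n)))) ?_ ?_ ?_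
  · intro p hp
    obtain ⟨hp1, hp2⟩ := mem_filter.1 hp
    have hp1 := (mem_filter.1 hp1).2
    have hs : σ⁻¹ = Tuple.sort p.2 := by rw [← hp2, inv_inv]
    refine mem_product.2 ⟨mem_filter.2 ⟨mem_univ _, ?_⟩, mem_filter.2 ⟨mem_univ _, ?_⟩⟩
    · intro i h
      rcases hp1 i h with h1 | ⟨h1, h2⟩
      · exact ⟨h1.le, fun _ => h1⟩
      · refine ⟨h1.le, fun hi => ?_⟩
        rw [mem_Des σ i h, hlex p.2 hs i h] at hi
        exact absurd h2 (not_le.2 hi)
    · exact (adm_iff_sort σ⁻¹ p.2).2 hs
  · intro p _ r _ hpr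
    have h1 := Prod.mk.inj hpr
    refine Prod.ext h1.1 ?_
    funext i
    have h2 := congrFun h1.2 (σ i)
    simpa using h2
  · intro p hp
    obtain ⟨hp1, hp2⟩ := mem_product.1 hp
    have hp1 := (mem_filter.1 hp1).2
    have hp2 := (mem_filter.1 hp2).2
    have he : (p.2 ∘ σ) ∘ (σ⁻¹ : Equiv.Perm (Fin n)) = p.2 := by
      funext i; simp
    have hs : σ⁻¹ = Tuple.sort (p.2 ∘ σ) := by
      rw [← adm_iff_sort, he]
      exact hp2
    refine ⟨(p.1, p.2 ∘ σ), mem_filter.2 ⟨mem_filter.2 ⟨mem_univ _, ?_⟩, ?_⟩, ?_⟩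
    · intro i h
      have h1 := hp1 i h
      have h2 := hlex (p.2 ∘ σ) hs i h
      rw [mem_Des σ i h, h2] at h1
      rcases h1.1.eq_or_lt with h3 | h3
      · by_cases h4 : (p.2 ∘ σ) ⟨i.val + 1, h⟩ < (p.2 ∘ σ) i
        · exact Or.inl (h1.2 h4)
        · exact Or.inr ⟨h3, not_lt.1 h4⟩
      · exact Or.inl h3
    · simp only
      rw [← hs, inv_inv]
    · exact Prod.ext rfl he

theorem partA : R442.GS.PartA := by
  intro n k l hn
  rw [← card_LM hn k l]
  rw [Finset.card_eq_sum_card_fiberwise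
    (f := fun p : (Fin n → Fin k) × (Fin n → Fin l) => (Tuple.sort p.2)⁻¹)
    (t := (univ : Finset (Equiv.Perm (Fin n)))) (fun _ _ => mem_coe.2 (mem_univ _))]
  refine Finset.sum_congr rfl fun σ _ => ?_
  rw [fiber_card σ, card_adm hn k _ (Des_lt σ), card_adm hn l _ (Des_lt σ⁻¹), des_eq, des_eq]

end Pool.Agent.R706.GS
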